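import Pool.Agent.helper24.NR.Spec

set_option autoImplicit false

namespace Pool.Agent.NR

open Finset

theorem QSF_walk {V : Type} (G : SimpleGraph V) : ∀ (n : ℕ) (g : ℕ → V), (∀ i < n, G.Adj (g i) (g (i + 1))) →
    ∃ p : G.Walk (g 0) (g n), p.length = n ∧ (∀ i ≤ n, p.getVert i = g i) ∧ p.support = (List.range (n + 1)).map g := by
  intro n
  induction n with
  | zero =>
    intro g _
    refine ⟨SimpleGraph.Walk.nil, rfl, ?_, ?_⟩
    · intro i hi
      have : i = 0 := by omega
      subst this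
      rfl
    · rfl
  | succ n ih =>
    intro g hg
    obtain ⟨p, hp1, hp2, hp3⟩ := ih (fun i => g (i + 1)) (fun i hi => hg (i + 1) (by omega))
    refine ⟨SimpleGraph.Walk.cons (hg 0 (by omega)) p, ?_, ?_, ?_⟩
    · rw [SimpleGraph.Walk.length_cons, hp1]
    · intro i hi
      rcases i with _ | i
      · rfl
      · rw [SimpleGraph.Walk.getVert_cons_succ]
        exact hp2 i (by omega)
    · rw [SimpleGraph.Walk.support_cons, hp3, List.range_succ_eq_map (n := n + 1), List.map_cons, List.map_map]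
      rfl

theorem QSF_walk2 {V : Type} (G : SimpleGraph V) (n : ℕ) (g : ℕ → V) (a b : V) (ha : g 0 = a) (hb : g n = b)
    (hg : ∀ i < n, G.Adj (g i) (g (i + 1))) :
    ∃ p : G.Walk a b, p.length = n ∧ (∀ i ≤ n, p.getVert i = g i) ∧ p.support = (List.range (n + 1)).map g := by
  subst ha
  subst hb
  exact QSF_walk G n g hg

theorem QSF_meet {V F : Type} [Fintype V] [DecidableEq V] (M : PolyMap V F) (f g : F) (hfg : f ≠ g) (u v : V)
    (huv : u ≠ v) (h1 : u ∈ M.vs f) (h2 : v ∈ M.vs f) (h3 : u ∈ M.vs g) (h4 : v ∈ M.vs g) :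
    s(u, v) ∈ M.es f ∧ s(u, v) ∈ M.es g := by
  rcases M.meet f g hfg with h | ⟨a, h⟩ | ⟨a, b, hab, hf, hg, h⟩
  · exact absurd ⟨h1, h3⟩ (h u)
  · exact absurd (((h u).1 ⟨h1, h3⟩).trans ((h v).1 ⟨h2, h4⟩).symm) huv
  · have e1 := (h u).1 ⟨h1, h3⟩
    have e2 := (h v).1 ⟨h2, h4⟩
    rcases e1 with rfl | rfl
    · rcases e2 with rfl | rfl
      · exact absurd rfl huv
      · exact ⟨hf, hg⟩
    · rcases e2 with rfl | rfl
      · rw [Sym2.eq_swap]
        exact ⟨hf, hg⟩
      · exact absurd rfl huv

theorem QSF : QSF_stmt := by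
  classical
  intro V F _ _ M x y f hxy hx hy
  have hcyc := M.isCycle f
  by_cases hE : s(x, y) ∈ M.es f
  · have hadj : (gr M.es).Adj x y := ⟨hxy, f, hE⟩
    refine ⟨SimpleGraph.Walk.cons hadj SimpleGraph.Walk.nil, ?_, ?_⟩
    · rw [SimpleGraph.Walk.cons_isPath_iff]
      refine ⟨SimpleGraph.Walk.IsPath.nil, ?_⟩
      rw [SimpleGraph.Walk.support_nil, List.mem_singleton]
      exact hxy
    · intro g i j hij hj hi' hj' k hk1 hk2
      rw [SimpleGraph.Walk.length_cons, SimpleGraph.Walk.length_nil] at hj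
      have e1 : i = 0 := by omega
      have e2 : j = 1 := by omega
      have e3 : k = 0 := by omega
      subst e1; subst e2; subst e3
      have hi2 : x ∈ M.vs g := hi'
      have hj2 : y ∈ M.vs g := hj'
      change s(x, y) ∈ M.es g
      by_cases hfg : f = g
      · rw [← hfg]; exact hE
      · exact (QSF_meet M f g hfg x y hxy hx hy hi2 hj2).2
  · have hex : ∃ k : ℕ, 0 < k ∧ ((M.bd f) ^ k) x = y := by
      obtain ⟨k, hk⟩ := hcyc.exists_pow_eq (Equiv.Perm.mem_support.1 hx) (Equiv.Perm.mem_support.1 hy)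
      refine ⟨k, ?_, hk⟩
      rcases Nat.eq_zero_or_pos k with rfl | h
      · exact absurd hk hxy
      · exact h
    obtain ⟨k, ⟨hk0, hk⟩, hmin⟩ : ∃ k : ℕ, (0 < k ∧ ((M.bd f) ^ k) x = y) ∧
        ∀ m < k, ¬ (0 < m ∧ ((M.bd f) ^ m) x = y) :=
      ⟨Nat.find hex, Nat.find_spec hex, fun m hm => Nat.find_min hex hm⟩
    have hinj : ∀ i j : ℕ, i < j → j ≤ k → ((M.bd f) ^ i) x ≠ ((M.bd f) ^ j) x := by
      intro i j hij hjk he
      have h1 : ((M.bd f) ^ (j - i)) x = x := by
        have h2 : ((M.bd f) ^ j) x = ((M.bd f) ^ i) (((M.bd f) ^ (j - i)) x) := by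
          rw [← Equiv.Perm.mul_apply, ← pow_add]
          congr 2
          omega
        rw [h2] at he
        exact (((M.bd f) ^ i).injective he).symm
      have h3 : ((M.bd f) ^ (k - (j - i))) x = y := by
        rw [← hk]
        have h4 : ((M.bd f) ^ k) x = ((M.bd f) ^ (k - (j - i))) (((M.bd f) ^ (j - i)) x) := by
          rw [← Equiv.Perm.mul_apply, ← pow_add]
          congr 2
          omega
        rw [h4, h1]
      rcases Nat.eq_zero_or_pos (k - (j - i)) with h0 | h0
      · rw [h0, pow_zero] at h3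
        exact hxy h3
      · exact hmin _ (by omega) ⟨h0, h3⟩
    have hsup : ∀ i : ℕ, ((M.bd f) ^ i) x ∈ (M.bd f).support := by
      intro i
      exact Equiv.Perm.pow_apply_mem_support.2 hx
    have hsucc : ∀ i : ℕ, ((M.bd f) ^ (i + 1)) x = (M.bd f) (((M.bd f) ^ i) x) := by
      intro i
      rw [pow_succ', Equiv.Perm.mul_apply]
    have hedge : ∀ i : ℕ, s(((M.bd f) ^ i) x, ((M.bd f) ^ (i + 1)) x) ∈ M.es f := by
      intro i
      rw [hsucc]
      exact mem_image.2 ⟨((M.bd f) ^ i) x, hsup i, rfl⟩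
    have hadj : ∀ i < k, (gr M.es).Adj (((M.bd f) ^ i) x) (((M.bd f) ^ (i + 1)) x) :=
      fun i hi => ⟨hinj i (i + 1) (by omega) (by omega), f, hedge i⟩
    obtain ⟨p, hp1, hp2, hp3⟩ := QSF_walk2 (gr M.es) k (fun i => ((M.bd f) ^ i) x) x y rfl hk hadj
    refine ⟨p, ?_, ?_⟩
    · rw [SimpleGraph.Walk.isPath_def, hp3]
      refine List.Nodup.map_on ?_ List.nodup_range
      intro i hi j hj he
      rw [List.mem_range] at hi hj
      by_contra hne
      rcases Nat.lt_or_gt_of_ne hne with h | h
      · exact hinj i j h (by omega) he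
      · exact hinj j i h (by omega) he.symm
    · intro g i j hij hj hi' hj' l hl1 hl2
      have hj2 : j ≤ k := by rw [← hp1]; exact hj
      have el : p.getVert l = ((M.bd f) ^ l) x := hp2 l (by omega)
      have el1 : p.getVert (l + 1) = ((M.bd f) ^ (l + 1)) x := hp2 (l + 1) (by omega)
      have ei : p.getVert i = ((M.bd f) ^ i) x := hp2 i (by omega)
      have ej : p.getVert j = ((M.bd f) ^ j) x := hp2 j hj2
      rw [el, el1]
      rw [ei] at hi'
      rw [ej] at hj'
      by_cases hfg : f = g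
      · rw [← hfg]; exact hedge l
      · obtain ⟨m1, m2⟩ := QSF_meet M f g hfg _ _ (hinj i j hij hj2) (hsup i) (hsup j) hi' hj'
        obtain ⟨w, hw, hws⟩ := mem_image.1 m1
        rw [Sym2.eq_iff] at hws
        rcases hws with ⟨hw1, hw2⟩ | ⟨hw1, hw2⟩
        · -- σ p_i = p_j
          rw [hw1, ← hsucc] at hw2
          have hji : j = i + 1 := by
            by_contra hne
            exact hinj (i + 1) j (by omega) hj2 hw2
          have hli : l = i := by omega
          rw [hli]
          rw [hji] at m2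
          exact m2
        · exfalso
          rw [hw1, ← hsucc] at hw2
          by_cases hjk : j < k
          · exact hinj i (j + 1) (by omega) (by omega) hw2.symm
          · have hjk' : j = k := by omega
            rcases Nat.eq_zero_or_pos i with hi0 | hi0
            · rw [hi0, hjk', hk] at m1
              exact hE m1
            · -- σ^(j+1) x = σ^i x, i ≥ 1
              have h5 : ((M.bd f) ^ (j + 1 - i)) x = ((M.bd f) ^ 0) x := by
                have h6 : ((M.bd f) ^ (j + 1)) x = ((M.bd f) ^ i) (((M.bd f) ^ (j + 1 - i)) x) := by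
                  rw [← Equiv.Perm.mul_apply, ← pow_add]
                  congr 2
                  omega
                rw [h6] at hw2
                exact ((M.bd f) ^ i).injective hw2
              exact hinj 0 (j + 1 - i) (by omega) (by omega) h5.symm

end Pool.Agent.NR
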